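import Pool.Agent.Q142.FM.RE
import Pool.Agent.Q142.FM.CC

set_option autoImplicit false

/-!
# Finitely presented monsters of type (6): every conjugation invariant property is decidable

Let `G` be a finitely presented group with finitely many conjugacy classes, generated by the
images of the generators of `FreeGroup (Fin n)` under `f`. Then the conjugacy problem of `G` is
decidable, and for EVERY property `P` of elements which is invariant under conjugation (being
trivial, having finite order, having order `5`, being a square, being a commutator, ...) the set of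
words whose value has the property `P` is decidable.
-/

namespace Pool.Agent.Results.MP_65b575_al.FewClassesDecidable

theorem result (G : Type) [Group G] (hfp : Group.IsFinitelyPresented G)
    (h6 : Finite (ConjClasses G)) (n : ℕ) (f : FreeGroup (Fin n) →* G)
    (hf : Function.Surjective f) :
    (∀ P : G → Prop, (∀ x g : G, P x → P (g * x * g⁻¹)) →
      ComputablePred (fun w : List (Fin n × Bool) => P (f (FreeGroup.mk w)))) ∧
    ComputablePred (fun p : List (Fin n × Bool) × List (Fin n × Bool) =>
      IsConj (f (FreeGroup.mk p.1)) (f (FreeGroup.mk p.2))) := by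
  classical
  have hrep : ∀ c : ConjClasses G, ∃ u : List (Fin n × Bool),
      ConjClasses.mk (f (FreeGroup.mk u)) = c := by
    intro c
    obtain ⟨x, rfl⟩ := ConjClasses.mk_surjective c
    obtain ⟨z, rfl⟩ := hf x
    exact ⟨z.toWord, by rw [FreeGroup.mk_toWord]⟩
  have hc : ∀ (α : Type) [Primcodable α] (u : α → List (Fin n × Bool)), Primrec u →
      ∀ c : ConjClasses G, Pool.Agent.Helper227.S1 (fun a => ConjClasses.mk (f (FreeGroup.mk (u a))) = c) := by
    intro α _ u hu c
    obtain ⟨v, rfl⟩ := hrep c
    refine (Pool.Agent.Q142.FM.s1_conj hfp f hf hu (Primrec.const v)).of_eq (fun a => ?_)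
    rw [ConjClasses.mk_eq_mk_iff_isConj]
  refine ⟨?_, ?_⟩
  · intro P hP
    have hPc : ∀ x y : G, IsConj x y → P x → P y := by
      intro x y h hx
      obtain ⟨g, rfl⟩ := isConj_iff.1 h
      exact hP x g hx
    have key : ∀ Q : G → Prop, (∀ x y : G, IsConj x y → Q x → Q y) →
        Pool.Agent.Helper227.S1 (fun w : List (Fin n × Bool) => Q (f (FreeGroup.mk w))) := by
      intro Q hQ
      have h1 := Pool.Agent.Q142.FM.s1_fin (ι := {c : ConjClasses G // Q (Quotient.out c)})
        (p := fun i (w : List (Fin n × Bool)) => ConjClasses.mk (f (FreeGroup.mk w)) = i.1)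
        (fun i => hc _ (fun w => w) Primrec.id i.1)
      refine h1.of_eq (fun w => ?_)
      constructor
      · rintro ⟨⟨c, hQc⟩, hw⟩
        have h2 : IsConj (Quotient.out c) (f (FreeGroup.mk w)) := by
          rw [← ConjClasses.mk_eq_mk_iff_isConj]
          exact (Quotient.out_eq c).trans hw.symm
        exact hQ _ _ h2 hQc
      · intro h
        refine ⟨⟨ConjClasses.mk (f (FreeGroup.mk w)), ?_⟩, rfl⟩
        have h2 : IsConj (f (FreeGroup.mk w)) (Quotient.out (ConjClasses.mk (f (FreeGroup.mk w)))) := by
          rw [← ConjClasses.mk_eq_mk_iff_isConj]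
          exact (Quotient.out_eq (ConjClasses.mk (f (FreeGroup.mk w)))).symm
        exact hQ _ _ h2 h
    refine Pool.Agent.Q142.FM.computable_of (key P hPc) (key (fun x => ¬ P x) ?_)
    intro x y h hx hy
    exact hx (hPc y x h.symm hy)
  · refine Pool.Agent.Q142.FM.computable_of
      (Pool.Agent.Q142.FM.s1_conj hfp f hf Primrec.fst Primrec.snd) ?_
    have h1 := Pool.Agent.Q142.FM.s1_fin (ι := {c : ConjClasses G × ConjClasses G // c.1 ≠ c.2})
      (p := fun i (p : List (Fin n × Bool) × List (Fin n × Bool)) =>
        ConjClasses.mk (f (FreeGroup.mk p.1)) = i.1.1 ∧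
          ConjClasses.mk (f (FreeGroup.mk p.2)) = i.1.2)
      (fun i => (hc _ (fun p : List (Fin n × Bool) × List (Fin n × Bool) => p.1) Primrec.fst
        i.1.1).and (hc _ (fun p : List (Fin n × Bool) × List (Fin n × Bool) => p.2) Primrec.snd
        i.1.2))
    refine h1.of_eq (fun p => ?_)
    rw [← ConjClasses.mk_eq_mk_iff_isConj]
    constructor
    · rintro ⟨⟨c, hne⟩, e1, e2⟩ h
      exact hne (e1.symm.trans (h.trans e2))
    · intro h
      exact ⟨⟨(_, _), h⟩, rfl, rfl⟩

end Pool.Agent.Results.MP_65b575_al.FewClassesDecidable
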