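import Pool.Agent.Q142.FM.Gro

set_option autoImplicit false

/-!
# Groups with finitely many conjugacy classes: bounded exponent, or a copy of the rationals

An infinite group with `k < ∞` conjugacy classes (a monster of type (6)) is
either of bounded exponent (a monster of type (2)), or it contains an element `b` of infinite
order which lies in a subgroup isomorphic to `(ℚ, +)` and which, for one exponent
`1 ≤ r < k`, is conjugate to `b ^ (m ^ r)` for every `m ≥ 1`; in the second case it is a monster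
of none of the types (2), (3), (4), (7).
-/

namespace Pool.Agent.Results.MP_65b575_al.FewClassesRationals

/-- Property (2): bounded exponent. -/
def Two (G : Type) [Group G] : Prop := ∃ n : ℕ, 1 ≤ n ∧ ∀ g : G, g ^ n = 1

/-- Property (3): not cyclic, all proper subgroups cyclic. -/
def Three (G : Type) [Group G] : Prop := ¬ IsCyclic G ∧ ∀ H : Subgroup G, H ≠ ⊤ → IsCyclic H

/-- Property (4): for some prime `p` every nontrivial proper subgroup has order `p`. -/
def Four (G : Type) [Group G] : Prop :=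
  ∃ p : ℕ, p.Prime ∧ ∀ H : Subgroup G, H ≠ ⊥ → H ≠ ⊤ → Nat.card H = p

/-- The ball of radius `r` with respect to `S`: products of at most `r` elements of `S ∪ S⁻¹`. -/
def ball {G : Type} [Group G] (S : Set G) (r : ℕ) : Set G :=
  {g | ∃ l : List G, l.length ≤ r ∧ (∀ x ∈ l, x ∈ S ∨ x⁻¹ ∈ S) ∧ l.prod = g}

/-- Property (7): intermediate growth for some finite generating set. -/
def Seven (G : Type) [Group G] : Prop :=
  ∃ S : Set G, S.Finite ∧ Subgroup.closure S = ⊤ ∧
    (¬ ∃ (C : ℝ) (d : ℕ), ∀ r : ℕ, 1 ≤ r → ((ball S r).ncard : ℝ) ≤ C * (r : ℝ) ^ d) ∧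
    ¬ ∃ c : ℝ, 0 < c ∧ ∀ r : ℕ, Real.exp (c * r) ≤ ((ball S r).ncard : ℝ)

theorem result (G : Type) [Group G] [Infinite G] (h6 : Finite (ConjClasses G)) :
    Two G ∨
    ((∃ (b : G) (r : ℕ), 1 ≤ r ∧ r < Nat.card (ConjClasses G) ∧
        (∃ F : Multiplicative ℚ →* G, Function.Injective F ∧ F (Multiplicative.ofAdd 1) = b) ∧
        ∀ m : ℕ, 1 ≤ m → ∃ g : G, g * b * g⁻¹ = b ^ (m ^ r)) ∧
      ¬ Two G ∧ ¬ Three G ∧ ¬ Four G ∧ ¬ Seven G) := by
  classical
  by_cases hall : ∀ g : G, ∃ n : ℕ, 0 < n ∧ g ^ n = 1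
  · left
    have hfin := Fintype.ofFinite (ConjClasses G)
    refine ⟨∏ c : ConjClasses G, orderOf (Quotient.out c), ?_, ?_⟩
    · apply Nat.succ_le_of_lt
      apply Finset.prod_pos
      intro c _
      obtain ⟨n, hn, h⟩ := hall (Quotient.out c)
      exact orderOf_pos_iff.2 (isOfFinOrder_iff_pow_eq_one.2 ⟨n, hn, h⟩)
    · intro g
      have h1 : IsConj g (Quotient.out (ConjClasses.mk g)) := by
        rw [← ConjClasses.mk_eq_mk_iff_isConj]
        exact (Quotient.out_eq (ConjClasses.mk g)).symm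
      obtain ⟨n, hn⟩ := Finset.dvd_prod_of_mem (fun c : ConjClasses G => orderOf (Quotient.out c))
        (Finset.mem_univ (ConjClasses.mk g))
      rw [hn, pow_mul]
      obtain ⟨x, hx⟩ := isConj_iff.1 h1
      have h2 : g ^ orderOf (Quotient.out (ConjClasses.mk g)) = 1 := by
        have h3 : (x * g * x⁻¹) ^ orderOf (Quotient.out (ConjClasses.mk g)) = 1 := by
          rw [hx]
          exact pow_orderOf_eq_one _
        rw [conj_pow, mul_inv_eq_one] at h3
        exact mul_left_cancel (h3.trans (mul_one x).symm)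
      rw [h2, one_pow]
  · right
    push Not at hall
    obtain ⟨a, ha⟩ := hall
    obtain ⟨b, hb, hgood⟩ := Pool.Agent.Q142.FM.exists_good ha
    obtain ⟨y, hy0, hy⟩ := Pool.Agent.Q142.FM.exists_seq
      (fun x => ConjClasses.mk x ∈ Pool.Agent.Q142.FM.Ob (ConjClasses.mk b))
      (fun m hm x hx => hgood.root m hm hx) b (Pool.Agent.Q142.FM.Ob_self _)
    obtain ⟨F, hF, hF1⟩ := Pool.Agent.Q142.FM.exists_ratHom hy (by rw [hy0]; exact hb)
    rw [hy0] at hF1
    have hr1 := Pool.Agent.Q142.FM.Ob_card_pos (ConjClasses.mk b)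
    have hconj : ∀ m : ℕ, 1 ≤ m → ∃ g : G,
        g * b * g⁻¹ = b ^ (m ^ Nat.card (Pool.Agent.Q142.FM.Ob (ConjClasses.mk b))) := by
      intro m hm
      have h1 := hgood.pow m hm
      rw [Pool.Agent.Q142.FM.pw_mk, ConjClasses.mk_eq_mk_iff_isConj, isConj_comm] at h1
      exact isConj_iff.1 h1
    obtain ⟨g, hg⟩ := hconj 2 (by norm_num)
    set r := Nat.card (Pool.Agent.Q142.FM.Ob (ConjClasses.mk b)) with hr
    have hM : 2 ≤ 2 ^ r := by
      calc 2 = 2 ^ 1 := (pow_one 2).symm
        _ ≤ 2 ^ r := Nat.pow_le_pow_right (by norm_num) hr1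
    have hnab : ¬ ∀ x : G, x * b = b * x := by
      intro h
      rw [h g, mul_inv_cancel_right] at hg
      have h2 : b ^ (2 ^ r - 1) = 1 := by
        have h3 : b ^ (2 ^ r - 1) * b = 1 * b := by
          rw [← pow_succ, show 2 ^ r - 1 + 1 = 2 ^ r by omega, ← hg, one_mul]
        exact mul_right_cancel h3
      exact hb _ (by omega) h2
    refine ⟨⟨b, r, hr1, Pool.Agent.Q142.FM.Ob_card_lt hb, ⟨F, hF, hF1⟩, hconj⟩, ?_, ?_, ?_, ?_⟩
    · rintro ⟨n, hn, h⟩
      exact hb n hn (h b)
    · rintro ⟨-, h⟩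
      have htop : F.range ≠ ⊤ := by
        intro ht
        apply hnab
        intro x
        have hx : x ∈ F.range := by rw [ht]; trivial
        obtain ⟨q, rfl⟩ := hx
        rw [← hF1, ← map_mul, ← map_mul, mul_comm]
      have hcyc := h _ htop
      have e : Multiplicative ℚ ≃* F.range := MonoidHom.ofInjective hF
      have hcq : IsCyclic (Multiplicative ℚ) :=
        isCyclic_of_injective e.toMonoidHom e.injective
      obtain ⟨q, hq⟩ := hcq.exists_generator
      have hq0 : q.toAdd ≠ 0 := by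
        intro h0
        obtain ⟨n, hn⟩ := hq (Multiplicative.ofAdd 1)
        have h1 : (n : ℤ) • q.toAdd = (1 : ℚ) := congrArg Multiplicative.toAdd hn
        rw [h0, smul_zero] at h1
        exact zero_ne_one h1
      obtain ⟨n, hn⟩ := hq (Multiplicative.ofAdd (q.toAdd / 2))
      have h1 : (n : ℤ) • q.toAdd = q.toAdd / 2 := congrArg Multiplicative.toAdd hn
      rw [zsmul_eq_mul] at h1
      have h2 : (n : ℚ) = 1 / 2 := by
        field_simp at h1 ⊢
        linarith
      have h3 : (2 * n : ℤ) = 1 := by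
        have : ((2 * n : ℤ) : ℚ) = 1 := by
          push_cast
          rw [h2]
          norm_num
        exact_mod_cast this
      omega
    · rintro ⟨p, hp, h⟩
      have h1 : Subgroup.zpowers b ≠ ⊥ := by
        intro h0
        rw [Subgroup.zpowers_eq_bot] at h0
        exact hb 1 one_pos (by rw [h0, one_pow])
      have h2 : Subgroup.zpowers b ≠ ⊤ := by
        intro ht
        apply hnab
        intro x
        have hx : x ∈ Subgroup.zpowers b := by rw [ht]; trivial
        obtain ⟨n, rfl⟩ := hx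
        exact ((Commute.refl b).zpow_left n).eq
      have h3 := h _ h1 h2
      rw [Nat.card_zpowers] at h3
      have h4 : 0 < orderOf b := by
        rw [h3]
        exact hp.pos
      exact hb _ h4 (pow_orderOf_eq_one b)
    · rintro ⟨S, hSf, hS, -, h⟩
      exact h (Pool.Agent.Q142.FM.exp_growth hSf hS hM hb hg)

end Pool.Agent.Results.MP_65b575_al.FewClassesRationals
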