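import Pool.Agent.Q142.FM.CC

set_option autoImplicit false

/-!
# Monsters of type (6): reduction to simple groups

Let `G` be an infinite finitely presented group with finitely many conjugacy classes. Then `G` has
a normal subgroup `M` of finite index without proper subgroups of finite index, and `M` has a
normal subgroup `K` such that `M ⧸ K` is an infinite finitely presented SIMPLE group with finitely
many conjugacy classes. Hence Q1 for `k = 6` has a positive answer if and only if there is an
infinite finitely presented simple group with finitely many conjugacy classes.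
-/

namespace Pool.Agent.Results.MP_65b575_al.FewClassesSimple

theorem result :
    (∀ (G : Type) [Group G] [Infinite G], Group.IsFinitelyPresented G →
      Finite (ConjClasses G) →
      ∃ M : Subgroup G, M.Normal ∧ M.FiniteIndex ∧ (∀ H : Subgroup M, H.FiniteIndex → H = ⊤) ∧
        ∃ (K : Subgroup M) (_ : K.Normal), Infinite (M ⧸ K) ∧
          Group.IsFinitelyPresented (M ⧸ K) ∧ IsSimpleGroup (M ⧸ K) ∧
          Finite (ConjClasses (M ⧸ K))) ∧
    ((∃ (G : Type) (_ : Group G), Infinite G ∧ Group.IsFinitelyPresented G ∧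
        Finite (ConjClasses G)) ↔
      ∃ (S : Type) (_ : Group S), Infinite S ∧ Group.IsFinitelyPresented S ∧
        Finite (ConjClasses S) ∧ IsSimpleGroup S) := by
  have key : ∀ (G : Type) [Group G] [Infinite G], Group.IsFinitelyPresented G →
      Finite (ConjClasses G) →
      ∃ M : Subgroup G, M.Normal ∧ M.FiniteIndex ∧ (∀ H : Subgroup M, H.FiniteIndex → H = ⊤) ∧
        ∃ (K : Subgroup M) (_ : K.Normal), Infinite (M ⧸ K) ∧
          Group.IsFinitelyPresented (M ⧸ K) ∧ IsSimpleGroup (M ⧸ K) ∧
          Finite (ConjClasses (M ⧸ K)) := by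
    intro G _ hinf hfp hc
    obtain ⟨M, hMn, hMf, hM⟩ := Pool.Agent.Q142.FM.exists_res (G := G)
    have hMfp := Pool.Agent.Q142.FM.fp_finiteIndex hfp M hMf
    have hMc := Pool.Agent.Q142.FM.fin_sub M hMf
    have hMinf : Infinite M := by
      by_contra hcon
      have hfM : Finite M := not_infinite_iff_finite.1 hcon
      have : Finite (G ⧸ M) := Subgroup.finite_quotient_of_finiteIndex
      have hG : Finite G := Finite.of_equiv _ (Subgroup.groupEquivQuotientProdSubgroup (s := M)).symm
      exact not_finite G
    obtain ⟨K, hK, hne, hs⟩ := Pool.Agent.Q142.FM.exists_simple (G := M)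
    refine ⟨M, hMn, hMf, hM, K, hK, ?_, ?_, hs, Pool.Agent.Q142.FM.fin_quot K⟩
    · by_contra hcon
      have hfQ : Finite (M ⧸ K) := not_infinite_iff_finite.1 hcon
      exact hne (hM K (Subgroup.finiteIndex_of_finite_quotient))
    · exact Group.IsFinitelyPresented.quotient K (Pool.Agent.Q142.FM.fng_normal K hK)
  refine ⟨key, ?_, ?_⟩
  · rintro ⟨G, _, hinf, hfp, hc⟩
    obtain ⟨M, -, -, -, K, hK, h1, h2, h3, h4⟩ := key G hfp hc
    exact ⟨M ⧸ K, inferInstance, h1, h2, h4, h3⟩
  · rintro ⟨S, _, h1, h2, h3, -⟩
    exact ⟨S, inferInstance, h1, h2, h3⟩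

end Pool.Agent.Results.MP_65b575_al.FewClassesSimple
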