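import Pool.Agent.Q142.FM.T3D

set_option autoImplicit false

/-!
# Finitely presented monsters of types (3) and (4): reduction to simple groups, decidability

Let `G` be an infinite finitely presented group which is not cyclic and all of whose proper
subgroups are cyclic. Then `G` has no proper subgroup of finite index, every proper normal subgroup
is central, the centre is cyclic, and `G` modulo its centre is an infinite finitely presented
SIMPLE group of the same kind. So Q1 for `k = 3` has a positive answer if and only if there is an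
infinite finitely presented simple group of type (3). The word problem of `G` is decidable, and so
is the question which finite lists of words generate `G`. Monsters of type (4) are themselves
simple.
-/

namespace Pool.Agent.Results.MP_65b575_al.ProperCyclicSimple

open Pool.Agent.Helper227 Pool.Agent.Q142.FM

/-- Property (3): not cyclic, all proper subgroups cyclic. -/
def Three (G : Type) [Group G] : Prop := ¬ IsCyclic G ∧ ∀ H : Subgroup G, H ≠ ⊤ → IsCyclic H

/-- Property (4): for some prime `p` every nontrivial proper subgroup has order `p`. -/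
def Four (G : Type) [Group G] : Prop :=
  ∃ p : ℕ, p.Prime ∧ ∀ H : Subgroup G, H ≠ ⊥ → H ≠ ⊤ → Nat.card H = p

/-- The structure of a monster of type (3), with its central quotient. -/
def Structured (G : Type) [Group G] : Prop :=
  (∀ H : Subgroup G, H.FiniteIndex → H = ⊤) ∧
  (∀ N : Subgroup G, N.Normal → N ≠ ⊤ → N ≤ Subgroup.center G) ∧
  IsCyclic (Subgroup.center G) ∧
  Infinite (G ⧸ Subgroup.center G) ∧ Group.IsFinitelyPresented (G ⧸ Subgroup.center G) ∧
  IsSimpleGroup (G ⧸ Subgroup.center G) ∧ Three (G ⧸ Subgroup.center G)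

theorem structured {G : Type} [Group G] [Infinite G] (hfp : Group.IsFinitelyPresented G)
    (h3 : Three G) : Structured G := by
  have hfg : Group.FG G := by
    obtain ⟨n, φ, hφ, -⟩ := hfp.out
    exact Group.fg_of_surjective hφ
  obtain ⟨h1, h2, h4, h5, h6⟩ := central_quot hfg h3.1 h3.2
  have hcyc := h3.2 _ h1
  refine ⟨no_fi h3.1 h3.2, normal_central h3.1 h3.2, hcyc, h2, ?_, h4, h5, h6⟩
  have hZ : Group.FG (Subgroup.center G) := by
    obtain ⟨z, hz⟩ := hcyc.exists_generator
    refine Group.fg_iff.2 ⟨{z}, ?_, Set.finite_singleton z⟩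
    rw [eq_top_iff]
    intro x _
    rw [← Subgroup.zpowers_eq_closure]
    exact hz x
  exact Group.IsFinitelyPresented.quotient _ (Subgroup.IsFinitelyNormallyGenerated.of_FG _)

theorem simple_of_four {G : Type} [Group G] [Infinite G] (hfg : Group.FG G) (h4 : Four G) :
    IsSimpleGroup G := by
  obtain ⟨p, hp, h4⟩ := h4
  have hfin : ∀ H : Subgroup G, H ≠ ⊤ → Finite H := by
    intro H hH
    by_cases hb : H = ⊥
    · rw [hb]; infer_instance
    · exact Nat.finite_of_card_ne_zero (by rw [h4 H hb hH]; exact hp.ne_zero)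
  have hcyc : ∀ H : Subgroup G, H ≠ ⊤ → IsCyclic H := by
    intro H hH
    by_cases hb : H = ⊥
    · rw [hb]; infer_instance
    · have : Fact p.Prime := ⟨hp⟩
      exact isCyclic_of_prime_card (h4 H hb hH)
  have hfi : ∀ H : Subgroup G, H.FiniteIndex → H = ⊤ := by
    intro H hH
    by_contra hne
    have h1 := hfin H hne
    have h2 := infinite_of_fi H hH
    exact not_finite H
  have hncomm := noncomm hfg hfi
  have hnc : ¬ IsCyclic G := by
    intro h
    apply hncomm
    intro x y
    obtain ⟨g, hg⟩ := h.exists_generator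
    obtain ⟨a, rfl⟩ := hg x
    obtain ⟨b, rfl⟩ := hg y
    exact ((Commute.refl g).zpow_zpow a b).eq
  refine { exists_pair_ne := exists_pair_ne G, eq_bot_or_eq_top_of_normal := ?_ }
  intro N hN
  by_cases ht : N = ⊤
  · exact Or.inr ht
  left
  by_contra hb
  have hcen := normal_central hnc hcyc N hN ht
  apply hncomm
  have hsub : ∀ x : G, x ∉ N → Subgroup.zpowers x ⊔ N = ⊤ := by
    intro x hx
    by_contra hne
    have h5 : Subgroup.zpowers x ⊔ N ≠ ⊥ := by
      intro h
      apply hb
      rw [eq_bot_iff, ← h]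
      exact le_sup_right
    have h6 := h4 _ h5 hne
    have h7 := h4 N hb ht
    have hf := hfin _ hne
    have h8 : N = Subgroup.zpowers x ⊔ N :=
      Subgroup.eq_of_le_of_card_ge le_sup_right (by rw [h6, h7])
    apply hx
    rw [h8]
    exact Subgroup.mem_sup_left (Subgroup.mem_zpowers x)
  intro x y
  by_cases hx : x ∈ N
  · exact (Subgroup.mem_center_iff.1 (hcen hx) y).symm
  have hy : y ∈ Subgroup.zpowers x ⊔ N := by rw [hsub x hx]; trivial
  rw [Subgroup.mem_sup_of_normal_right] at hy
  obtain ⟨a, ⟨k, rfl⟩, z, hz, rfl⟩ := hy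
  have h9 : Commute x z := Subgroup.mem_center_iff.1 (hcen hz) x
  exact (((Commute.refl x).zpow_right k).mul_right h9).eq

section Dec

variable {G : Type} [Group G] {n : ℕ}

theorem word [Infinite G] (hfp : Group.IsFinitelyPresented G) (h3 : Three G)
    (f : FreeGroup (Fin n) →* G) (hf : Function.Surjective f) :
    ComputablePred (fun w : List (Fin n × Bool) => f (FreeGroup.mk w) = 1) := by
  have hfg : Group.FG G := Group.fg_of_surjective hf
  obtain ⟨hZ, -, -, -, -⟩ := central_quot hfg h3.1 h3.2
  obtain ⟨⟨z, hzZ⟩, hz⟩ := (h3.2 _ hZ).exists_generator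
  obtain ⟨y, hy⟩ := hf z
  set v : List (Fin n × Bool) := y.toWord with hv
  have hvz : f (FreeGroup.mk v) = z := by rw [hv, FreeGroup.mk_toWord, hy]
  refine computable_of (s1_one hfp f hf) ?_
  have h1 : S1 (fun w : List (Fin n × Bool) => ∀ i : Fin n,
      f (FreeGroup.mk [(i, true)]) ∈ Subgroup.normalClosure {f (FreeGroup.mk w)}) :=
    s1_fin_all (fun i => s1_ncl hfp f hf [(i, true)])
  have h2 : S1 (fun w : List (Fin n × Bool) => ∃ k : ℕ, k % orderOf z ≠ 0 ∧
      (f (FreeGroup.mk w) = f (FreeGroup.mk (pwW v k)) ∨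
       f (FreeGroup.mk w) = f (FreeGroup.mk (FreeGroup.invRev (pwW v k))))) := by
    refine S1.ex (p := fun (w : List (Fin n × Bool)) (k : ℕ) => k % orderOf z ≠ 0 ∧
      (f (FreeGroup.mk w) = f (FreeGroup.mk (pwW v k)) ∨
       f (FreeGroup.mk w) = f (FreeGroup.mk (FreeGroup.invRev (pwW v k))))) ?_
    refine S1.and ?_ (S1.or ?_ ?_)
    · refine S1.of_prim ?_
      exact (Primrec.eq.comp (Primrec.nat_mod.comp Primrec.snd (Primrec.const (orderOf z)))
        (Primrec.const 0)).not
    · exact s1_eq hfp f hf Primrec.fst (pwW_pr.comp (Primrec.const v) Primrec.snd)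
    · exact s1_eq hfp f hf Primrec.fst
        (invRev_pr.comp (pwW_pr.comp (Primrec.const v) Primrec.snd))
  refine (h1.or h2).of_eq (fun w => ?_)
  have hord : ∀ k : ℕ, z ^ k = 1 ↔ k % orderOf z = 0 := by
    intro k
    rw [← orderOf_dvd_iff_pow_eq_one, Nat.dvd_iff_mod_eq_zero]
  constructor
  · rintro (h | ⟨k, hk, h | h⟩) h0
    · rw [h0] at h
      have hle : Subgroup.normalClosure ({1} : Set G) ≤ ⊥ :=
        Subgroup.normalClosure_le_normal (by simp)
      have : f = 1 := by
        apply FreeGroup.ext_hom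
        intro i
        exact Subgroup.mem_bot.1 (hle (h i))
      obtain ⟨g, hg⟩ := exists_ne (1 : G)
      obtain ⟨u, rfl⟩ := hf g
      rw [this] at hg
      exact hg rfl
    · rw [h0, ev_pwW, hvz] at h
      exact hk ((hord k).1 h.symm)
    · rw [h0, mk_inv, map_inv, ev_pwW, hvz] at h
      exact hk ((hord k).1 (inv_eq_one.1 h.symm))
  · intro h0
    by_cases hc : f (FreeGroup.mk w) ∈ Subgroup.center G
    · right
      obtain ⟨k, hk⟩ := hz ⟨_, hc⟩
      have hk' : z ^ k = f (FreeGroup.mk w) := congrArg Subtype.val hk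
      refine ⟨k.natAbs, ?_, ?_⟩
      · intro hcon
        apply h0
        rw [← hk']
        have h5 := (hord _).2 hcon
        rcases Int.natAbs_eq k with h | h
        · rw [h, zpow_natCast, h5]
        · rw [h, zpow_neg, zpow_natCast, h5, inv_one]
      · rw [mk_inv, map_inv, ev_pwW, hvz, ← hk']
        rcases Int.natAbs_eq k with h | h
        · left
          conv_lhs => rw [h]
          rw [zpow_natCast]
        · right
          conv_lhs => rw [h]
          rw [zpow_neg, zpow_natCast]
    · left
      intro i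
      have h6 : Subgroup.normalClosure {f (FreeGroup.mk w)} = ⊤ := by
        by_contra hne
        apply hc
        exact normal_central h3.1 h3.2 _ Subgroup.normalClosure_normal hne
          (Subgroup.subset_normalClosure (Set.mem_singleton _))
      rw [h6]
      trivial

theorem gens [Infinite G] (hfp : Group.IsFinitelyPresented G) (h3 : Three G)
    (f : FreeGroup (Fin n) →* G) (hf : Function.Surjective f) :
    ComputablePred (fun L : List (List (Fin n × Bool)) =>
      Subgroup.closure {x | ∃ w ∈ L, x = f (FreeGroup.mk w)} = ⊤) := by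
  refine computable_of (s1_top hfp f hf) ?_
  have h1 : S1 (fun L : List (List (Fin n × Bool)) => ∃ u : List (Fin n × Bool),
      ∀ w ∈ L, f (FreeGroup.mk w) ∈ Subgroup.zpowers (f (FreeGroup.mk u))) := by
    refine S1.ex (p := fun (L : List (List (Fin n × Bool))) (u : List (Fin n × Bool)) =>
      ∀ w ∈ L, f (FreeGroup.mk w) ∈ Subgroup.zpowers (f (FreeGroup.mk u))) ?_
    refine S1.all_mem (p := fun (x : List (List (Fin n × Bool)) × List (Fin n × Bool))
      (w : List (Fin n × Bool)) =>
      f (FreeGroup.mk w) ∈ Subgroup.zpowers (f (FreeGroup.mk x.2))) ?_ Primrec.fst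
    exact s1_zpow hfp f hf Primrec.snd (Primrec.snd.comp Primrec.fst)
  refine h1.of_eq (fun L => ?_)
  constructor
  · rintro ⟨u, hu⟩ htop
    have h2 : Subgroup.closure {x | ∃ w ∈ L, x = f (FreeGroup.mk w)} ≤
        Subgroup.zpowers (f (FreeGroup.mk u)) := by
      rw [Subgroup.closure_le]
      rintro _ ⟨w, hw, rfl⟩
      exact hu w hw
    rw [htop] at h2
    apply h3.1
    exact ⟨f (FreeGroup.mk u), fun x => h2 trivial⟩
  · intro h
    obtain ⟨⟨c, hc⟩, hgen⟩ := (h3.2 _ h).exists_generator
    obtain ⟨y, hy⟩ := hf c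
    refine ⟨y.toWord, fun w hw => ?_⟩
    rw [FreeGroup.mk_toWord, hy]
    obtain ⟨k, hk⟩ := hgen ⟨f (FreeGroup.mk w), Subgroup.subset_closure ⟨w, hw, rfl⟩⟩
    exact ⟨k, congrArg Subtype.val hk⟩

end Dec

theorem result :
    (∀ (G : Type) [Group G] [Infinite G], Group.IsFinitelyPresented G → Three G →
      Structured G ∧
      (∀ (n : ℕ) (f : FreeGroup (Fin n) →* G), Function.Surjective f →
        ComputablePred (fun w : List (Fin n × Bool) => f (FreeGroup.mk w) = 1) ∧
        ComputablePred (fun L : List (List (Fin n × Bool)) =>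
          Subgroup.closure {x | ∃ w ∈ L, x = f (FreeGroup.mk w)} = ⊤))) ∧
    ((∃ (G : Type) (_ : Group G), Infinite G ∧ Group.IsFinitelyPresented G ∧ Three G) ↔
      ∃ (S : Type) (_ : Group S), Infinite S ∧ Group.IsFinitelyPresented S ∧ Three S ∧
        IsSimpleGroup S) ∧
    (∀ (G : Type) [Group G] [Infinite G], Group.FG G → Four G → IsSimpleGroup G) := by
  refine ⟨?_, ?_, ?_⟩
  · intro G _ _ hfp h3
    exact ⟨structured hfp h3, fun n f hf => ⟨word hfp h3 f hf, gens hfp h3 f hf⟩⟩
  · constructor
    · rintro ⟨G, _, hinf, hfp, h3⟩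
      obtain ⟨-, -, -, h1, h2, h4, h5⟩ := structured hfp h3
      exact ⟨_, inferInstance, h1, h2, h5, h4⟩
    · rintro ⟨S, _, h1, h2, h3, -⟩
      exact ⟨S, inferInstance, h1, h2, h3⟩
  · intro G _ _ hfg h4
    exact simple_of_four hfg h4

end Pool.Agent.Results.MP_65b575_al.ProperCyclicSimple
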